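import Pool.Agent.T23h.FW.Defs

/-!
# Sieve windows and fractional covers: proofs
-/

set_option autoImplicit false

namespace Pool.Agent.T23h.FW

open Filter Finset

/-! ### linear forms -/

/-- no prime divides the product of the values of the family at every integer -/
def Adm {T : ℕ} (f : Fin T → ℤ × ℤ) : Prop :=
  ∀ p : ℕ, p.Prime → ∃ n : ℤ, ∀ i, ¬ (p : ℤ) ∣ (f i).1 * n + (f i).2

/-- the number of `1 ≤ n ≤ N` at which exactly the forms `f i` with `i ∈ J` take prime values -/
def pat {T : ℕ} (f : Fin T → ℤ × ℤ) (J : Finset (Fin T)) (N : ℕ) : ℕ :=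
  ((Icc 1 N).filter (fun n : ℕ => ∀ i, ((f i).1 * (n : ℤ) + (f i).2).toNat.Prime ↔ i ∈ J)).card

/-- a probability distribution on the sets of indices which covers every index with probability `≥ 5 / 18` -/
def Cvs {T : ℕ} (p : Finset (Fin T) → ℝ) : Prop :=
  (∀ S, 0 ≤ p S) ∧ ∑ S, p S = 1 ∧
    ∀ i, 5 / 18 ≤ ∑ S ∈ univ.filter (fun S : Finset (Fin T) => i ∈ S), p S

open Classical in
/-- the theorem of `Pool.Agent.Results.MP_6a20cc_nt.FractionalCover` -/
def FCS : Prop := ∀ T : ℕ, 1 ≤ T → ∃ (C : ℕ) (c : ℝ), 0 < c ∧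
    ∀ (V : Fin T → Finset (ℤ × ℤ)) (n : ℕ), 1 ≤ n → (∀ i, n ≤ (V i).card) →
    (∀ i, ∀ f ∈ V i, 0 < f.1) →
    ∃ (G : Finset (Fin T → ℤ × ℤ)) (p : (Fin T → ℤ × ℤ) → Finset (Fin T) → ℝ),
      (((Fintype.piFinset V).filter (fun f => Adm f ∧ f ∉ G)).card : ℝ) ≤
        C / (n : ℝ) ^ c * ∏ i, ((V i).card : ℝ) ∧
      (∀ f ∈ G, Cvs (p f)) ∧
      ∃ᶠ N : ℕ in atTop, ∀ f ∈ G, ∀ S, p f S ≠ 0 → ∀ J ⊆ S,
        (N : ℝ) / (Real.log N) ^ C ≤ (pat f J N : ℝ)

/-! ### consequences of a fractional cover -/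

theorem weight {I : Finset ℕ} {R : Finset ℕ → Prop} (h : FracCover I R) (w : ℕ → ℝ) (hw : ∀ e, 0 ≤ w e) :
    ∃ S ⊆ I, R S ∧ 5 / 18 * ∑ e ∈ I, w e ≤ ∑ e ∈ S, w e := by
  obtain ⟨q, h0, h1, h2, h3⟩ := h
  by_contra hcon
  push Not at hcon
  -- double counting
  have e1 : ∑ S ∈ I.powerset, q S * ∑ e ∈ S, w e =
      ∑ e ∈ I, w e * ∑ S ∈ I.powerset.filter (fun S => e ∈ S), q S := by
    have h4 : ∀ S ∈ I.powerset, q S * ∑ e ∈ S, w e = ∑ e ∈ I, (if e ∈ S then w e * q S else 0) := by
      intro S hS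
      rw [← sum_filter, mul_sum]
      have h5 : I.filter (fun e => e ∈ S) = S := by
        ext e
        rw [mem_filter]
        exact ⟨fun h => h.2, fun h => ⟨mem_powerset.1 hS h, h⟩⟩
      rw [h5]
      exact sum_congr rfl fun e _ => mul_comm _ _
    rw [sum_congr rfl h4, sum_comm]
    refine sum_congr rfl fun e _ => ?_
    rw [mul_sum, sum_filter]
  have e2 : 5 / 18 * ∑ e ∈ I, w e ≤ ∑ S ∈ I.powerset, q S * ∑ e ∈ S, w e := by
    rw [e1, mul_sum]
    refine sum_le_sum fun e he => ?_
    rw [mul_comm (5 / 18 : ℝ)]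
    exact mul_le_mul_of_nonneg_left (h3 e he) (hw e)
  have e3 : ∑ S ∈ I.powerset, q S * ∑ e ∈ S, w e < ∑ S ∈ I.powerset, q S * (5 / 18 * ∑ e ∈ I, w e) := by
    refine sum_lt_sum ?_ ?_
    · intro S hS
      by_cases hq : q S = 0
      · rw [hq, zero_mul, zero_mul]
      · exact mul_le_mul_of_nonneg_left (hcon S (mem_powerset.1 hS) (h1 S hS hq)).le (h0 S)
    · have h6 : ∃ S ∈ I.powerset, q S ≠ 0 := by
        by_contra hc
        push Not at hc
        rw [sum_eq_zero hc] at h2
        exact zero_ne_one h2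
      obtain ⟨S, hS, hq⟩ := h6
      exact ⟨S, hS, mul_lt_mul_of_pos_left (hcon S (mem_powerset.1 hS) (h1 S hS hq))
        (lt_of_le_of_ne (h0 S) (Ne.symm hq))⟩
  rw [← sum_mul, h2, one_mul] at e3
  linarith

theorem greedy {I : Finset ℕ} {R : Finset ℕ → Prop} (h : FracCover I R) (r : ℕ) :
    ∃ F : Finset (Finset ℕ), (∀ S ∈ F, S ⊆ I ∧ R S) ∧ F.card ≤ r ∧
      ((I \ F.biUnion id).card : ℝ) ≤ (13 / 18) ^ r * I.card := by
  induction r with
  | zero => exact ⟨∅, by simp, by simp, by simp⟩
  | succ r ih =>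
    obtain ⟨F, h1, h2, h3⟩ := ih
    obtain ⟨S, hS, hR, hw⟩ := weight h (fun e => if e ∈ I \ F.biUnion id then (1 : ℝ) else 0)
      (fun e => by split_ifs <;> norm_num)
    refine ⟨insert S F, ?_, (card_insert_le _ _).trans (by omega), ?_⟩
    · intro S' hS'
      rcases mem_insert.1 hS' with rfl | h4
      · exact ⟨hS, hR⟩
      · exact h1 S' h4
    · have e1 : ∑ e ∈ I, (if e ∈ I \ F.biUnion id then (1 : ℝ) else 0) = (I \ F.biUnion id).card := by
        rw [← sum_filter]
        have : I.filter (fun e => e ∈ I \ F.biUnion id) = I \ F.biUnion id := by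
          ext e
          simp only [mem_filter, Finset.mem_sdiff]
          tauto
        rw [this]
        simp
      have e2 : ∑ e ∈ S, (if e ∈ I \ F.biUnion id then (1 : ℝ) else 0) = (S ∩ (I \ F.biUnion id)).card := by
        rw [← sum_filter, filter_mem_eq_inter]
        simp
      rw [e1, e2] at hw
      have e3 : (I \ (insert S F).biUnion id) ∪ (S ∩ (I \ F.biUnion id)) ⊆ I \ F.biUnion id := by
        intro e he
        simp only [biUnion_insert, id_eq, mem_union, Finset.mem_sdiff, mem_inter] at he ⊢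
        tauto
      have e4 : Disjoint (I \ (insert S F).biUnion id) (S ∩ (I \ F.biUnion id)) := by
        rw [disjoint_left]
        intro e h5 h6
        simp only [biUnion_insert, id_eq, mem_union, Finset.mem_sdiff, mem_inter] at h5 h6
        tauto
      have e5 := card_le_card e3
      rw [card_union_of_disjoint e4] at e5
      have e6 : ((I \ (insert S F).biUnion id).card : ℝ) + (S ∩ (I \ F.biUnion id)).card ≤
          (I \ F.biUnion id).card := by exact_mod_cast e5
      calc ((I \ (insert S F).biUnion id).card : ℝ) ≤ 13 / 18 * (I \ F.biUnion id).card := by linarith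
        _ ≤ 13 / 18 * ((13 / 18) ^ r * I.card) := by gcongr
        _ = (13 / 18) ^ (r + 1) * I.card := by ring

theorem union {T : ℕ} (hT : 1 ≤ T) {I : Finset ℕ} (hI : I.card = T) {R : Finset ℕ → Prop} (h : FracCover I R) :
    ∃ F : Finset (Finset ℕ), (∀ S ∈ F, S ⊆ I ∧ R S) ∧ F.biUnion id = I ∧
      (F.card : ℝ) ≤ 1 + Real.log T / Real.log (18 / 13) := by
  have hl : 0 < Real.log (18 / 13) := Real.log_pos (by norm_num)
  have hT1 : (1 : ℝ) ≤ T := by exact_mod_cast hT
  have hlT : 0 ≤ Real.log T := Real.log_nonneg hT1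
  set r := ⌊Real.log T / Real.log (18 / 13)⌋₊ + 1 with hr
  obtain ⟨F, h1, h2, h3⟩ := greedy h r
  have hr1 : Real.log T / Real.log (18 / 13) < r := by
    rw [hr]
    push_cast
    exact Nat.lt_floor_add_one _
  have hr2 : (r : ℝ) ≤ 1 + Real.log T / Real.log (18 / 13) := by
    rw [hr]
    push_cast
    have := Nat.floor_le (div_nonneg hlT hl.le)
    linarith
  refine ⟨F, h1, ?_, le_trans (by exact_mod_cast h2) hr2⟩
  have h4 : ((13 : ℝ) / 18) ^ r * I.card < 1 := by
    rw [hI]
    have h5 : (T : ℝ) < (18 / 13) ^ r := by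
      rw [div_lt_iff₀ hl] at hr1
      have h6 : Real.log T < Real.log ((18 / 13) ^ r) := by
        rw [Real.log_pow]
        exact hr1
      exact (Real.log_lt_log_iff (by linarith) (by positivity)).1 h6
    have h7 : ((13 : ℝ) / 18) ^ r * (18 / 13) ^ r = 1 := by
      rw [← mul_pow]
      norm_num
    calc ((13 : ℝ) / 18) ^ r * T < (13 / 18) ^ r * (18 / 13) ^ r := by gcongr
      _ = 1 := h7
  have h5 : ((I \ F.biUnion id).card : ℝ) < 1 := lt_of_le_of_lt h3 h4
  have h6 : (I \ F.biUnion id).card = 0 := by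
    have : (I \ F.biUnion id).card < 1 := by exact_mod_cast h5
    omega
  refine subset_antisymm ?_ (sdiff_eq_empty_iff_subset.1 (card_eq_zero.1 h6))
  intro e he
  obtain ⟨S, hS, heS⟩ := mem_biUnion.1 he
  exact (h1 S hS).1 heS

/-! ### from the forms to the windows -/

theorem coprime_primorial {n k : ℕ} (h : ∀ p ≤ k, p.Prime → ¬ p ∣ n) :
    Nat.Coprime (primorial k) n := by
  unfold primorial
  refine Nat.Coprime.prod_left fun p hp => ?_
  have hp' := mem_filter.1 hp
  have h1 : p < k + 1 := mem_range.1 hp'.1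
  exact (Nat.Prime.coprime_iff_not_dvd hp'.2).2 (h p (by omega) hp'.2)

/-- the linear form of a survivor -/
def frm (k e : ℕ) : ℤ × ℤ := ((primorial k : ℤ), (e : ℤ))

theorem frm_inj (k : ℕ) : Function.Injective (frm k) := by
  intro a b h
  unfold frm at h
  have := (Prod.mk.inj h).2
  exact_mod_cast this

/-- the local condition -/
theorem local_ok (m k p : ℕ) (hp : p.Prime) :
    ∃ r : ℤ, ∀ e ∈ survivors m k, ¬ (p : ℤ) ∣ (frm k e).1 * r + (frm k e).2 := by
  by_cases hpk : p ≤ k
  · refine ⟨0, fun e he hd => ?_⟩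
    unfold survivors at he
    have h1 := (mem_filter.1 he).2 p hpk hp
    simp only [frm, mul_zero, zero_add] at hd
    exact h1 (by exact_mod_cast hd)
  · have hcop : IsCoprime (primorial k : ℤ) (p : ℤ) := by
      have h1 : Nat.Coprime (primorial k) p := by
        unfold primorial
        refine Nat.Coprime.prod_left fun q hq => ?_
        have hq' := mem_filter.1 hq
        have h1 : q < k + 1 := mem_range.1 hq'.1
        exact (Nat.coprime_primes hq'.2 hp).2 (by omega)
      exact Nat.isCoprime_iff_coprime.2 h1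
    obtain ⟨u, v, huv⟩ := hcop
    refine ⟨- (m : ℤ) * u, fun e he hd => ?_⟩
    unfold survivors at he
    have he' := mem_Ioc.1 (mem_filter.1 he).1
    simp only [frm] at hd
    have h2 : (p : ℤ) ∣ (e : ℤ) - m := by
      have h3 : (primorial k : ℤ) * (-(m : ℤ) * u) + e = ((e : ℤ) - m) + p * (m * v) := by
        have : (primorial k : ℤ) * u = 1 - v * p := by linarith
        calc (primorial k : ℤ) * (-(m : ℤ) * u) + e = - (m : ℤ) * ((primorial k : ℤ) * u) + e := by ring
          _ = - (m : ℤ) * (1 - v * p) + e := by rw [this]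
          _ = ((e : ℤ) - m) + p * (m * v) := by ring
      rw [h3] at hd
      exact (dvd_add_left (dvd_mul_right _ _)).1 hd
    have h4 := Int.le_of_dvd (by omega) h2
    omega

/-- from the forms to the windows -/
theorem pattern_le {T m k : ℕ} {I : Finset ℕ} (e : Fin T → ℕ) (he : ∀ i, e i ∈ survivors m k)
    (hI : ∀ a ∈ I, ∃ i, e i = a) (J : Finset ℕ) (N : ℕ) :
    pat (fun i => frm k (e i)) (univ.filter (fun i => e i ∈ J)) N ≤ windows m k I J (m + primorial k * N) := by
  unfold pat windows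
  have hP : 0 < primorial k := primorial_pos k
  refine card_le_card_of_injOn (fun n => m + primorial k * n) ?_ ?_
  · intro n hn
    have hn' := mem_filter.1 (mem_coe.1 hn)
    have hn1 := mem_Icc.1 hn'.1
    have h1 : 1 * 1 ≤ primorial k * n := Nat.mul_le_mul hP hn1.1
    have h2 : primorial k * n ≤ primorial k * N := Nat.mul_le_mul_left _ hn1.2
    have hb : 1 ≤ m + primorial k * n ∧ m + primorial k * n ≤ m + primorial k * N := ⟨by omega, by omega⟩
    refine mem_coe.2 (mem_filter.2 ⟨mem_Icc.2 hb, ?_, fun a ha => ?_⟩)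
    · have : m + primorial k * n ≡ m + 0 [MOD primorial k] :=
        Nat.ModEq.add_left m ((Nat.modEq_zero_iff_dvd).2 (dvd_mul_right _ _))
      rwa [add_zero] at this
    · obtain ⟨i, rfl⟩ := hI a ha
      have h5 := hn'.2 i
      simp only [mem_filter, mem_univ, true_and] at h5
      rw [← h5]
      have hei := (mem_Ioc.1 (mem_filter.1 (he i)).1).1
      have h3 : m + primorial k * n + (e i - m) = primorial k * n + e i := by omega
      have h4 : ((frm k (e i)).1 * (n : ℤ) + (frm k (e i)).2).toNat = primorial k * n + e i := by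
        unfold frm
        have : (primorial k : ℤ) * (n : ℤ) + (e i : ℤ) = ((primorial k * n + e i : ℕ) : ℤ) := by
          push_cast; ring
        simp only [this, Int.toNat_natCast]
      rw [h3, h4]
  · intro a _ b _ hab
    have h1 : primorial k * a = primorial k * b := by
      simp only at hab
      omega
    exact Nat.eq_of_mul_eq_mul_left hP h1

/-- the scales -/
theorem scale (m P C : ℕ) (hP : 0 < P) : ∀ᶠ N : ℕ in atTop,
    ((m + P * N : ℕ) : ℝ) / (Real.log ((m + P * N : ℕ) : ℝ)) ^ (C + 1) ≤ (N : ℝ) / (Real.log N) ^ C := by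
  have hlog : Tendsto (fun X : ℕ => Real.log (X : ℝ)) atTop atTop :=
    Real.tendsto_log_atTop.comp tendsto_natCast_atTop_atTop
  filter_upwards [hlog.eventually_ge_atTop (2 * P : ℝ), eventually_ge_atTop (m + 2)] with N h1 h2
  have hPr : (1 : ℝ) ≤ P := by exact_mod_cast hP
  have hNX : N ≤ m + P * N := by
    have : 1 * N ≤ P * N := Nat.mul_le_mul_right _ hP
    omega
  have hN1 : (1 : ℝ) < N := by
    have : 1 < N := by omega
    exact_mod_cast this
  have hlN : 0 < Real.log N := Real.log_pos hN1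
  have hlNX : Real.log N ≤ Real.log ((m + P * N : ℕ) : ℝ) :=
    Real.log_le_log (by linarith) (by exact_mod_cast hNX)
  have hX : ((m + P * N : ℕ) : ℝ) ≤ 2 * P * N := by
    have h3 : (m : ℝ) ≤ N := by
      have : m ≤ N := by omega
      exact_mod_cast this
    push_cast
    nlinarith
  have hlX : 0 < Real.log ((m + P * N : ℕ) : ℝ) := lt_of_lt_of_le hlN hlNX
  set L := Real.log ((m + P * N : ℕ) : ℝ) with hL
  calc ((m + P * N : ℕ) : ℝ) / L ^ (C + 1) ≤ (2 * P * N) / L ^ (C + 1) := by gcongr
    _ = (2 * P / L) * (N / L ^ C) := by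
        rw [pow_succ]; field_simp
    _ ≤ 1 * (N / L ^ C) := by
        apply mul_le_mul_of_nonneg_right _ (by positivity)
        rw [div_le_one hlX]
        linarith
    _ ≤ (N : ℝ) / (Real.log N) ^ C := by
        rw [one_mul]
        apply div_le_div_of_nonneg_left (by positivity) (by positivity)
        exact pow_le_pow_left₀ hlN.le hlNX C

/-- the increasing enumeration -/
noncomputable def enum (T : ℕ) (I : Finset ℕ) : Fin T → ℕ :=
  if h : I.card = T then I.orderEmbOfFin h else fun _ => 0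

theorem enum_mem {T : ℕ} {I : Finset ℕ} (h : I.card = T) (i : Fin T) : enum T I i ∈ I := by
  unfold enum
  rw [dif_pos h]
  exact I.orderEmbOfFin_mem h i

theorem enum_inj {T : ℕ} {I : Finset ℕ} (h : I.card = T) : Function.Injective (enum T I) := by
  unfold enum
  rw [dif_pos h]
  exact (I.orderEmbOfFin h).injective

theorem enum_surj {T : ℕ} {I : Finset ℕ} (h : I.card = T) {a : ℕ} (ha : a ∈ I) : ∃ i, enum T I i = a := by
  unfold enum
  rw [dif_pos h]
  have : a ∈ Set.range (I.orderEmbOfFin h) := by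
    rw [Finset.range_orderEmbOfFin]
    exact ha
  exact this

open Classical in
/-- the transfer of the distribution -/
theorem cover_of {T : ℕ} {I : Finset ℕ} (hI : I.card = T) {p : Finset (Fin T) → ℝ} (hp : Cvs p)
    {R : Finset ℕ → Prop} (hR : ∀ S ⊆ I, p (univ.filter (fun i => enum T I i ∈ S)) ≠ 0 → R S) :
    FracCover I R := by
  obtain ⟨h0, h1, h2⟩ := hp
  set e := enum T I with he
  have hinj : Function.Injective e := enum_inj hI
  have hA : ∀ A : Finset (Fin T), A.image e ⊆ I := fun A a ha => by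
    obtain ⟨i, -, rfl⟩ := mem_image.1 ha
    exact enum_mem hI i
  have hB : ∀ A : Finset (Fin T), univ.filter (fun i => e i ∈ A.image e) = A := fun A => by
    ext i
    simp only [mem_filter, mem_univ, true_and]
    constructor
    · intro h
      obtain ⟨j, hj, hji⟩ := mem_image.1 h
      exact hinj hji ▸ hj
    · exact fun h => mem_image_of_mem e h
  have hC : ∀ S ⊆ I, (univ.filter (fun i => e i ∈ S)).image e = S := fun S hS => by
    ext a
    rw [mem_image]
    constructor
    · rintro ⟨i, hi, rfl⟩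
      exact (mem_filter.1 hi).2
    · intro ha
      obtain ⟨i, rfl⟩ := enum_surj hI (hS ha)
      exact ⟨i, mem_filter.2 ⟨mem_univ _, ha⟩, rfl⟩
  refine ⟨fun S => p (univ.filter (fun i => e i ∈ S)), fun S => h0 _,
    fun S hS hq => hR S (mem_powerset.1 hS) hq, ?_, fun a ha => ?_⟩
  · rw [← h1]
    refine sum_bij' (fun S _ => univ.filter (fun i => e i ∈ S)) (fun A _ => A.image e)
      (fun _ _ => mem_univ _) (fun A _ => mem_powerset.2 (hA A)) (fun S hS => hC S (mem_powerset.1 hS))
      (fun A _ => hB A) fun _ _ => rfl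
  · obtain ⟨j, rfl⟩ := enum_surj hI ha
    refine (h2 j).trans (le_of_eq ?_)
    symm
    refine sum_bij' (fun S _ => univ.filter (fun i => e i ∈ S)) (fun A _ => A.image e)
      (fun S hS => ?_) (fun A hA' => ?_) (fun S hS => hC S (mem_powerset.1 (mem_filter.1 hS).1))
      (fun A _ => hB A) fun _ _ => rfl
    · exact mem_filter.2 ⟨mem_univ _, mem_filter.2 ⟨mem_univ _, (mem_filter.1 hS).2⟩⟩
    · exact mem_filter.2 ⟨mem_powerset.2 (hA A), mem_image_of_mem e (mem_filter.1 hA').2⟩

open Classical in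
theorem main (hFC : FCS) (T : ℕ) (hT : 1 ≤ T) : ∃ (C : ℕ) (c : ℝ), 0 < c ∧ ∀ m k : ℕ,
    1 ≤ (survivors m k).card → ∃ G : Finset (Finset ℕ), G ⊆ (survivors m k).powersetCard T ∧
      ((survivors m k).card.choose T : ℝ) - G.card ≤ C * ((survivors m k).card : ℝ) ^ ((T : ℝ) - c) ∧
      ∃ᶠ X : ℕ in atTop, ∀ I ∈ G, FracCover I (Realised m k C X I) ∧
        (∀ w : ℕ → ℝ, (∀ e, 0 ≤ w e) →
          ∃ S ⊆ I, Realised m k C X I S ∧ 5 / 18 * ∑ e ∈ I, w e ≤ ∑ e ∈ S, w e) ∧
        ∃ F : Finset (Finset ℕ), (∀ S ∈ F, Realised m k C X I S) ∧ F.biUnion id = I ∧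
          (F.card : ℝ) ≤ 1 + Real.log T / Real.log (18 / 13) := by
  obtain ⟨C, c, hc, hmain⟩ := hFC T hT
  refine ⟨C + 1, c, hc, fun m k hh => ?_⟩
  set U := survivors m k with hU
  have hP : 0 < primorial k := primorial_pos k
  have hVc : (U.image (frm k)).card = U.card := card_image_of_injective _ (frm_inj k)
  obtain ⟨G0, p, hG1, hG2, hG3⟩ := hmain (fun _ => U.image (frm k)) U.card hh (fun _ => hVc.ge) (by
    intro _ f hf
    obtain ⟨e, -, rfl⟩ := mem_image.1 hf
    unfold frm
    simp only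
    exact_mod_cast hP)
  let φ : Finset ℕ → (Fin T → ℤ × ℤ) := fun I i => frm k (enum T I i)
  let G : Finset (Finset ℕ) := (U.powersetCard T).filter (fun I => φ I ∈ G0)
  refine ⟨G, filter_subset _ _, ?_, ?_⟩
  · -- the number of exceptions
    have h1 : (U.powersetCard T).card = G.card + ((U.powersetCard T).filter (fun I => ¬ φ I ∈ G0)).card :=
      (card_filter_add_card_filter_not _).symm
    rw [card_powersetCard] at h1
    have h2 : ((U.powersetCard T).filter (fun I => ¬ φ I ∈ G0)).card ≤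
        ((Fintype.piFinset (fun _ : Fin T => U.image (frm k))).filter (fun f => Adm f ∧ f ∉ G0)).card := by
      refine card_le_card_of_injOn φ ?_ ?_
      · intro I hI
        obtain ⟨hI1, hI2⟩ := mem_filter.1 (mem_coe.1 hI)
        obtain ⟨hI3, hI4⟩ := mem_powersetCard.1 hI1
        refine mem_coe.2 (mem_filter.2 ⟨Fintype.mem_piFinset.2 fun i =>
          mem_image_of_mem _ (hI3 (enum_mem hI4 i)), fun q hq => ?_, hI2⟩)
        obtain ⟨r, hr⟩ := local_ok m k q hq
        exact ⟨r, fun i => hr _ (hI3 (enum_mem hI4 i))⟩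
      · intro I hI I' hI' hII
        obtain ⟨hI1, -⟩ := mem_filter.1 (mem_coe.1 hI)
        obtain ⟨-, hI4⟩ := mem_powersetCard.1 hI1
        obtain ⟨hI1', -⟩ := mem_filter.1 (mem_coe.1 hI')
        obtain ⟨-, hI4'⟩ := mem_powersetCard.1 hI1'
        have h3 : ∀ i, enum T I i = enum T I' i := fun i => frm_inj k (congrFun hII i)
        ext a
        constructor
        · intro ha
          obtain ⟨i, rfl⟩ := enum_surj hI4 ha
          rw [h3]
          exact enum_mem hI4' i
        · intro ha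
          obtain ⟨i, rfl⟩ := enum_surj hI4' ha
          rw [← h3]
          exact enum_mem hI4 i
    have h3 : ((U.card.choose T : ℕ) : ℝ) - G.card =
        ((U.powersetCard T).filter (fun I => ¬ φ I ∈ G0)).card := by
      rw [h1]
      push_cast
      ring
    rw [h3]
    have hhr : (0 : ℝ) < U.card := by exact_mod_cast hh
    calc (((U.powersetCard T).filter (fun I => ¬ φ I ∈ G0)).card : ℝ)
        ≤ ((Fintype.piFinset (fun _ : Fin T => U.image (frm k))).filter (fun f => Adm f ∧ f ∉ G0)).card := by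
          exact_mod_cast h2
      _ ≤ C / (U.card : ℝ) ^ c * ∏ _i : Fin T, ((U.image (frm k)).card : ℝ) := hG1
      _ = C * (U.card : ℝ) ^ ((T : ℝ) - c) := by
          rw [prod_const, card_univ, Fintype.card_fin, hVc, Real.rpow_sub hhr, Real.rpow_natCast]
          ring
      _ ≤ ((C + 1 : ℕ) : ℝ) * (U.card : ℝ) ^ ((T : ℝ) - c) := by
          apply mul_le_mul_of_nonneg_right _ (by positivity)
          push_cast
          linarith
  · have htend : Tendsto (fun N : ℕ => m + primorial k * N) atTop atTop :=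
      tendsto_atTop_mono (fun N => by
        have h0 : 1 * N ≤ primorial k * N := Nat.mul_le_mul_right _ hP
        change N ≤ m + primorial k * N
        omega) tendsto_id
    refine htend.frequently ((hG3.and_eventually (scale m (primorial k) C hP)).mono ?_)
    rintro N ⟨hN1, hN2⟩ I hI
    obtain ⟨hI1, hI2⟩ := mem_filter.1 hI
    obtain ⟨hI3, hI4⟩ := mem_powersetCard.1 hI1
    have hcov : FracCover I (Realised m k (C + 1) (m + primorial k * N) I) := by
      refine cover_of hI4 (hG2 _ hI2) fun S hS hq => ⟨hS, fun J hJ => ?_⟩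
      refine hN2.trans ((hN1 _ hI2 _ hq (univ.filter (fun i => enum T I i ∈ J)) ?_).trans ?_)
      · intro i hi
        exact mem_filter.2 ⟨mem_univ _, hJ (mem_filter.1 hi).2⟩
      · exact_mod_cast pattern_le (enum T I) (fun i => hI3 (enum_mem hI4 i))
          (fun a ha => enum_surj hI4 ha) J N
    refine ⟨hcov, fun w hw => weight hcov w hw, ?_⟩
    obtain ⟨F, h1, h2, h3⟩ := union hT hI4 hcov
    exact ⟨F, fun S hS => (h1 S hS).2, h2, h3⟩

end Pool.Agent.T23h.FW
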