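import Mathlib

/-!
# Sieve windows and fractional covers: definitions
-/

set_option autoImplicit false

namespace Pool.Agent.T23h.FW

open Filter Finset

/-- The integers of `(m, m + k]` without a prime factor `≤ k`. Their number is `h_m(k)`. -/
def survivors (m k : ℕ) : Finset ℕ :=
  (Ioc m (m + k)).filter (fun n => ∀ p ≤ k, p.Prime → ¬ p ∣ n)

/-- The number of `x ≤ X` with `x ≡ m` modulo every prime `≤ k` such that among the integers `x + (e - m)`, `e ∈ I`,
of the window `(x, x + k]` exactly those with `e ∈ J` are prime. -/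
def windows (m k : ℕ) (I J : Finset ℕ) (X : ℕ) : ℕ :=
  ((Icc 1 X).filter (fun x : ℕ => x ≡ m [MOD primorial k] ∧
    ∀ e ∈ I, (x + (e - m)).Prime ↔ e ∈ J)).card

/-- `S ⊆ I`, and each subset `J` of `S` is the exact set of primes of `I` in at least `X / (log X) ^ C` of these
translates up to `X`. -/
def Realised (m k C X : ℕ) (I S : Finset ℕ) : Prop :=
  S ⊆ I ∧ ∀ J ⊆ S, (X : ℝ) / (Real.log X) ^ C ≤ (windows m k I J X : ℝ)

/-- There is a probability distribution `q` on the subsets `S` of `I` with the property `R` such that each element of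
`I` lies in `S` with probability at least `5 / 18`. -/
def FracCover (I : Finset ℕ) (R : Finset ℕ → Prop) : Prop :=
  ∃ q : Finset ℕ → ℝ, (∀ S, 0 ≤ q S) ∧ (∀ S ∈ I.powerset, q S ≠ 0 → R S) ∧ ∑ S ∈ I.powerset, q S = 1 ∧
    ∀ e ∈ I, 5 / 18 ≤ ∑ S ∈ I.powerset.filter (fun S => e ∈ S), q S

end Pool.Agent.T23h.FW
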